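import Mathlib

set_option autoImplicit false

namespace Pool.Agent.Results.MP_f878ff_nt.FiniteRepresentations

open Polynomial

/-- `β` is a real cubic Pisot unit both of whose Galois conjugates are non-real. -/
def IsCubicPisotUnitNonreal (β : ℝ) : Prop :=
  1 < β ∧ IsIntegral ℤ β ∧ (minpoly ℤ β).natDegree = 3 ∧ IsUnit ((minpoly ℤ β).coeff 0) ∧
    ∀ z : ℂ, aeval z (minpoly ℤ β) = 0 → z ≠ (β : ℂ) → ‖z‖ < 1 ∧ z.im ≠ 0

/-- the basic data: `α = 1/β`, `γ = 1/β'` -/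
structure Dat (α : ℝ) (γ : ℂ) (a b : ℤ) : Prop where
  pos : 0 < α
  lt : α < 1
  im : γ.im ≠ 0
  norm : 1 < ‖γ‖
  eqα : α ^ 3 + b * α ^ 2 + a * α - 1 = 0
  eqγ : γ ^ 3 + b * γ ^ 2 + a * γ - 1 = 0

section

variable {α : ℝ} {γ : ℂ} {a b : ℤ}

/-- the lattice `ℤ[β]` seen in `ℝ × ℂ` -/
def InL (α : ℝ) (γ : ℂ) (s : ℝ) (t : ℂ) : Prop :=
  ∃ c : Fin 3 → ℤ, s = ∑ i : Fin 3, (c i : ℝ) * α ^ ((i : ℕ) + 1) ∧
    t = ∑ i : Fin 3, (c i : ℂ) * γ ^ ((i : ℕ) + 1)

lemma InL.add {s s' : ℝ} {t t' : ℂ} (h : InL α γ s t) (h' : InL α γ s' t') :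
    InL α γ (s + s') (t + t') := by
  obtain ⟨c, rfl, rfl⟩ := h
  obtain ⟨c', rfl, rfl⟩ := h'
  refine ⟨fun i => c i + c' i, ?_, ?_⟩ <;> simp [Fin.sum_univ_three] <;> ring

lemma InL.smul {s : ℝ} {t : ℂ} (n : ℤ) (h : InL α γ s t) : InL α γ (n * s) (n * t) := by
  obtain ⟨c, rfl, rfl⟩ := h
  refine ⟨fun i => n * c i, ?_, ?_⟩ <;> simp [Fin.sum_univ_three] <;> ring

lemma InL.mulα (h : Dat α γ a b) {s : ℝ} {t : ℂ} (hs : InL α γ s t) :
    InL α γ (α * s) (γ * t) := by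
  obtain ⟨c, rfl, rfl⟩ := hs
  refine ⟨![c 2, c 0 - a * c 2, c 1 - b * c 2], ?_, ?_⟩
  · simp [Fin.sum_univ_three]
    linear_combination (α * c 2) * h.eqα
  · simp [Fin.sum_univ_three]
    linear_combination (γ * c 2) * h.eqγ

lemma InL.one (h : Dat α γ a b) : InL α γ 1 1 := by
  refine ⟨![a, b, 1], ?_, ?_⟩
  · simp [Fin.sum_univ_three]
    linear_combination - h.eqα
  · simp [Fin.sum_univ_three]
    linear_combination - h.eqγ

lemma InL.pow (h : Dat α γ a b) (n : ℕ) : InL α γ (α ^ n) (γ ^ n) := by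
  induction n with
  | zero => simpa using InL.one h
  | succ n ih => rw [pow_succ', pow_succ']; exact ih.mulα h

lemma Dat.γ0 (h : Dat α γ a b) : γ ≠ 0 := by
  intro h0; apply h.im; rw [h0]; rfl

lemma Dat.inv (h : Dat α γ a b) : α⁻¹ = a + b * α + α ^ 2 ∧ γ⁻¹ = a + b * γ + γ ^ 2 := by
  have h1 := h.pos.ne'
  have h2 := h.γ0
  constructor
  · field_simp; linear_combination - h.eqα
  · field_simp; linear_combination - h.eqγ

lemma InL.mulβ (h : Dat α γ a b) {s : ℝ} {t : ℂ} (hs : InL α γ s t) :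
    InL α γ (α⁻¹ * s) (γ⁻¹ * t) := by
  rw [h.inv.1, h.inv.2]
  have h1 := (hs.smul a).add ((hs.mulα h).smul b)
  have h2 := h1.add ((hs.mulα h).mulα h)
  convert h2 using 1 <;> ring

lemma InL.aeval (h : Dat α γ a b) (f : ℤ[X]) : InL α γ (aeval α⁻¹ f) (aeval γ⁻¹ f) := by
  induction f using Polynomial.induction_on' with
  | add p q hp hq => rw [map_add, map_add]; exact hp.add hq
  | monomial n c =>
    have h1 : InL α γ (α⁻¹ ^ n) (γ⁻¹ ^ n) := by
      induction n with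
      | zero => simpa using InL.one h
      | succ n ih => rw [pow_succ', pow_succ']; exact ih.mulβ h
    have h2 := h1.smul c
    simpa [aeval_monomial] using h2

/-- the linear isomorphism `ℝ³ ≃ ℝ × ℂ` -/
noncomputable def Φ (α : ℝ) (γ : ℂ) : (Fin 3 → ℝ) →ₗ[ℝ] ℝ × ℂ where
  toFun z := (∑ i : Fin 3, z i * α ^ ((i : ℕ) + 1), ∑ i : Fin 3, (z i : ℂ) * γ ^ ((i : ℕ) + 1))
  map_add' z w := by
    ext <;> simp [Fin.sum_univ_three] <;> ring
  map_smul' c z := by
    ext <;> simp [Fin.sum_univ_three] <;> ring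

lemma Φ_injective (h : Dat α γ a b) : Function.Injective (Φ α γ) := by
  rw [← LinearMap.ker_eq_bot, LinearMap.ker_eq_bot']
  intro z hz
  have h1 := congrArg Prod.fst hz
  have h2 := congrArg Prod.snd hz
  simp only [Φ, LinearMap.coe_mk, AddHom.coe_mk, Fin.sum_univ_three, Prod.fst_zero,
    Prod.snd_zero] at h1 h2
  have hα := h.pos.ne'
  have e1 : z 0 + z 1 * α + z 2 * α ^ 2 = 0 := by
    have : α * (z 0 + z 1 * α + z 2 * α ^ 2) = 0 := by
      simp at h1; linear_combination h1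
    exact (mul_eq_zero.mp this).resolve_left hα
  have e2 : (z 0 : ℂ) + z 1 * γ + z 2 * γ ^ 2 = 0 := by
    have : γ * ((z 0 : ℂ) + z 1 * γ + z 2 * γ ^ 2) = 0 := by
      simp at h2; linear_combination h2
    exact (mul_eq_zero.mp this).resolve_left h.γ0
  have e3 := congrArg Complex.re e2
  have e4 := congrArg Complex.im e2
  simp [pow_two] at e3 e4
  have hv := h.im
  have e5 : z 1 = - 2 * z 2 * γ.re := by
    have : γ.im * (z 1 + 2 * z 2 * γ.re) = 0 := by linear_combination e4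
    have := (mul_eq_zero.mp this).resolve_left hv
    linarith
  have e6 : z 2 * ((γ.re - α) ^ 2 + γ.im ^ 2) = 0 := by
    rw [e5] at e1 e3
    linear_combination e1 - e3
  have e7 : z 2 = 0 := by
    rcases mul_eq_zero.mp e6 with h' | h'
    · exact h'
    · have : 0 < γ.im ^ 2 := by positivity
      nlinarith [sq_nonneg (γ.re - α)]
  have e8 : z 1 = 0 := by rw [e5, e7]; ring
  have e9 : z 0 = 0 := by rw [e7, e8] at e1; simpa using e1
  ext i
  fin_cases i <;> simp [e7, e8, e9]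

lemma exists_bound (h : Dat α γ a b) : ∃ K : ℝ, 0 < K ∧
    (∀ z : Fin 3 → ℝ, ∀ i, |z i| ≤ K * max |(Φ α γ z).1| ‖(Φ α γ z).2‖) ∧
    Function.Surjective (Φ α γ) := by
  have hfr : Module.finrank ℝ (Fin 3 → ℝ) = Module.finrank ℝ (ℝ × ℂ) := by
    simp [Complex.finrank_real_complex]
  let e := (Φ α γ).linearEquivOfInjective (Φ_injective h) hfr
  let e' := e.toContinuousLinearEquiv
  refine ⟨‖(e'.symm : (ℝ × ℂ) →L[ℝ] (Fin 3 → ℝ))‖ + 1, by positivity, ?_, ?_⟩
  · intro z i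
    have h1 : e' z = Φ α γ z := rfl
    have h2 : z = e'.symm (Φ α γ z) := by rw [← h1]; simp
    have h3 : ‖z‖ ≤ ‖(e'.symm : (ℝ × ℂ) →L[ℝ] (Fin 3 → ℝ))‖ * ‖Φ α γ z‖ := by
      conv_lhs => rw [h2]
      exact ContinuousLinearMap.le_opNorm (e'.symm : (ℝ × ℂ) →L[ℝ] (Fin 3 → ℝ)) _
    have h4 : |z i| ≤ ‖z‖ := norm_le_pi_norm z i
    have h5 : ‖Φ α γ z‖ = max |(Φ α γ z).1| ‖(Φ α γ z).2‖ := rfl
    rw [← h5]
    nlinarith [norm_nonneg (Φ α γ z)]
  · exact e.surjective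

/-- some power of a non-real number has non-positive real part -/
lemma exists_pow_re {γ : ℂ} (hγ : γ.im ≠ 0) : ∃ n : ℕ, 1 ≤ n ∧ (γ ^ n).re ≤ 0 := by
  wlog hpos : 0 < γ.im generalizing γ
  · have hneg : γ.im < 0 := lt_of_le_of_ne (not_lt.mp hpos) hγ
    obtain ⟨n, hn, h⟩ := this (γ := (starRingEnd ℂ) γ) (by simpa using hγ) (by simpa using hneg)
    refine ⟨n, hn, ?_⟩
    rw [← map_pow, Complex.conj_re] at h
    exact h
  have hne : γ ≠ 0 := by rintro rfl; exact hγ rfl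
  set θ := Complex.arg γ with hθ
  have hθ0 : 0 < θ := by
    rcases (Complex.arg_nonneg_iff.mpr hpos.le).lt_or_eq with h | h
    · exact h
    · exact absurd (Complex.arg_eq_zero_iff.mp h.symm).2 hpos.ne'
  have hθπ : θ < Real.pi := by
    rcases (Complex.arg_le_pi γ).lt_or_eq with h | h
    · exact h
    · exact absurd (Complex.arg_eq_pi_iff.mp h).2 hpos.ne'
  have hpow : ∀ n : ℕ, (γ ^ n).re = ‖γ‖ ^ n * Real.cos (n * θ) := by
    intro n
    conv_lhs => rw [← Complex.norm_mul_exp_arg_mul_I γ]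
    rw [mul_pow, ← Complex.exp_nat_mul, ← Complex.ofReal_pow, Complex.re_ofReal_mul]
    congr 1
    rw [show (n : ℂ) * (((Complex.arg γ : ℝ) : ℂ) * Complex.I) = ((n * θ : ℝ) : ℂ) * Complex.I by
      push_cast; rw [hθ]; ring]
    rw [Complex.exp_ofReal_mul_I_re]
  by_cases hc : Real.pi / 2 ≤ θ
  · refine ⟨1, le_rfl, ?_⟩
    rw [hpow]
    apply mul_nonpos_of_nonneg_of_nonpos (by positivity)
    apply Real.cos_nonpos_of_pi_div_two_le_of_le
    · simpa using hc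
    · simp; linarith [Real.pi_pos]
  · push Not at hc
    obtain ⟨n, hn⟩ := exists_nat_gt (Real.pi / 2 / θ)
    classical
    have hex : ∃ n : ℕ, Real.pi / 2 ≤ n * θ := ⟨n, by
      rw [div_lt_iff₀ hθ0] at hn; exact hn.le⟩
    obtain ⟨m, hm1, hm2⟩ : ∃ m : ℕ, Real.pi / 2 ≤ m * θ ∧ ∀ k < m, ¬ (Real.pi / 2 ≤ k * θ) :=
      ⟨Nat.find hex, Nat.find_spec hex, fun k hk => Nat.find_min hex hk⟩
    have hm0 : 1 ≤ m := by
      rcases Nat.eq_zero_or_pos m with rfl | h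
      · simp at hm1; linarith [Real.pi_pos]
      · exact h
    have hm3 := hm2 (m - 1) (by omega)
    push Not at hm3
    have hm4 : ((m - 1 : ℕ) : ℝ) = m - 1 := by push_cast [hm0]; ring
    rw [hm4] at hm3
    refine ⟨m, hm0, ?_⟩
    rw [hpow]
    apply mul_nonpos_of_nonneg_of_nonpos (by positivity)
    apply Real.cos_nonpos_of_pi_div_two_le_of_le hm1
    nlinarith

/-- `y` is a finite sum of `c_j α^j`, `j ≥ 1`, with nonnegative integers `c_j`. -/
def Rep (α : ℝ) (y : ℝ) : Prop := ∃ p : ℕ[X], y = α * aeval α p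

lemma Rep.add {α y y' : ℝ} (h : Rep α y) (h' : Rep α y') : Rep α (y + y') := by
  obtain ⟨p, rfl⟩ := h
  obtain ⟨q, rfl⟩ := h'
  exact ⟨p + q, by rw [map_add]; ring⟩

lemma Rep.zero (α : ℝ) : Rep α 0 := ⟨0, by simp⟩

lemma Rep.sum {α : ℝ} {ι : Type*} (s : Finset ι) (f : ι → ℝ) (h : ∀ i ∈ s, Rep α (f i)) :
    Rep α (∑ i ∈ s, f i) := by
  classical
  induction s using Finset.induction_on with
  | empty => simpa using Rep.zero α
  | insert a s ha ih =>
    rw [Finset.sum_insert ha]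
    exact (h a (Finset.mem_insert_self a s)).add
      (ih fun i hi => h i (Finset.mem_insert_of_mem hi))

lemma Rep.mono {α : ℝ} (n : ℕ) (j : ℕ) : Rep α (n * α ^ (j + 1)) := by
  refine ⟨monomial j n, ?_⟩
  rw [aeval_monomial]
  simp; ring

lemma Rep.mono' {α : ℝ} (n : ℤ) (hn : 0 ≤ n) (j : ℕ) : Rep α (n * α ^ (j + 1)) := by
  lift n to ℕ using hn
  simpa using Rep.mono n j

lemma Rep.mulα {α y : ℝ} (h : Rep α y) (k : ℕ) : Rep α (α ^ k * y) := by
  obtain ⟨p, rfl⟩ := h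
  refine ⟨X ^ k * p, ?_⟩
  rw [map_mul, map_pow, aeval_X]; ring

/-- every positive element of `ℤ[β]` is representable -/
lemma rep_of_pos (h : Dat α γ a b) {s : ℝ} {t : ℂ} (hst : InL α γ s t) (hs : 0 < s) : Rep α s := by
  obtain ⟨n, hn, hre⟩ := exists_pow_re h.im
  obtain ⟨K, hK, hbd, hsurj⟩ := exists_bound h
  have hα := h.pos
  have hγ0 := h.γ0
  -- the polynomial killing `γ ^ n`
  set A : ℝ := Complex.normSq (γ ^ n) with hA
  set B : ℝ := - 2 * (γ ^ n).re with hB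
  have hApos : 0 < A := Complex.normSq_pos.mpr (pow_ne_zero n hγ0)
  have hB0 : 0 ≤ B := by rw [hB]; linarith
  have hkill : (A : ℂ) + B * γ ^ n + γ ^ (2 * n) = 0 := by
    have h1 : ((γ ^ n) : ℂ) * (starRingEnd ℂ) (γ ^ n) = (A : ℂ) := by
      rw [Complex.mul_conj]
    have h2 : (γ ^ n) + (starRingEnd ℂ) (γ ^ n) = ((2 * (γ ^ n).re : ℝ) : ℂ) := by
      rw [Complex.add_conj]
    have h3 : (B : ℂ) = - ((γ ^ n) + (starRingEnd ℂ) (γ ^ n)) := by
      rw [h2, hB]; push_cast; ring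
    rw [← h1, h3]; ring
  set Q : ℝ := (α + α ^ 2 + α ^ 3) * (A + B * α ^ n + α ^ (2 * n)) with hQ
  have hQpos : 0 < Q := by positivity
  -- bound for the fluctuation
  set M : ℝ := ‖γ‖ ^ (2 * n + 3) * 9 with hM
  have hM9 : 9 ≤ M := by
    have : 1 ≤ ‖γ‖ ^ (2 * n + 3) := one_le_pow₀ h.norm.le
    linarith
  set D : ℝ := K * max ‖t‖ 0 with hD
  -- choose k large
  obtain ⟨k, hk⟩ : ∃ k : ℕ, (D + 1 + K * M) * Q / (s * A) < (α⁻¹) ^ k :=
    pow_unbounded_of_one_lt _ ((one_lt_inv₀ hα).mpr h.lt)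
  have hbig : D + 1 + K * M ≤ ((α⁻¹) ^ k * s / Q) * A := by
    rw [div_lt_iff₀ (by positivity)] at hk
    rw [div_mul_eq_mul_div, le_div_iff₀ hQpos]
    nlinarith
  set τ : ℝ := (α⁻¹) ^ k * s / Q with hτ
  have hτ0 : 0 ≤ τ := by positivity
  -- the conjugate
  obtain ⟨d, hd⟩ := hsurj (0, (γ⁻¹) ^ k * t)
  have hd1 : (Φ α γ d).1 = 0 := by rw [hd]
  have hd2 : (Φ α γ d).2 = (γ⁻¹) ^ k * t := by rw [hd]
  have hdb : ∀ i, |d i| ≤ D := by
    intro i
    refine (hbd d i).trans ?_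
    rw [hd1, hd2, abs_zero, norm_mul, norm_pow, norm_inv]
    apply mul_le_mul_of_nonneg_left _ hK.le
    apply max_le (le_max_right _ _)
    refine le_trans ?_ (le_max_left _ _)
    have h1 : (‖γ‖⁻¹) ^ k ≤ 1 := pow_le_one₀ (by positivity) (inv_le_one_of_one_le₀ h.norm.le)
    nlinarith [norm_nonneg t]
  simp only [Φ, LinearMap.coe_mk, AddHom.coe_mk, Fin.sum_univ_three] at hd1 hd2
  -- floors
  set N1 : Fin 3 → ℤ := fun i => ⌊τ * A + d i⌋ with hN1
  set N2 : ℤ := ⌊τ * B⌋ with hN2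
  set N3 : ℤ := ⌊τ⌋ with hN3
  have hN20 : 0 ≤ N2 := Int.floor_nonneg.mpr (by positivity)
  have hN30 : 0 ≤ N3 := Int.floor_nonneg.mpr hτ0
  have hLk : InL α γ ((α⁻¹) ^ k * s) ((γ⁻¹) ^ k * t) := by
    clear_value τ
    clear hk hbig hd hd2 hdb hτ
    induction k with
    | zero => simpa using hst
    | succ k ih =>
      rw [pow_succ', pow_succ', mul_assoc, mul_assoc]
      exact ih.mulβ h
  set S : ℝ := ∑ i : Fin 3, ((N1 i : ℝ) * α ^ ((i : ℕ) + 1) + N2 * α ^ (n + (i : ℕ) + 1) +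
    N3 * α ^ (2 * n + (i : ℕ) + 1)) with hS
  set T : ℂ := ∑ i : Fin 3, ((N1 i : ℂ) * γ ^ ((i : ℕ) + 1) + N2 * γ ^ (n + (i : ℕ) + 1) +
    N3 * γ ^ (2 * n + (i : ℕ) + 1)) with hT
  have hLST : InL α γ S T := by
    have hx : ∀ i : Fin 3, InL α γ ((N1 i : ℝ) * α ^ ((i : ℕ) + 1) + N2 * α ^ (n + (i : ℕ) + 1) +
        N3 * α ^ (2 * n + (i : ℕ) + 1)) ((N1 i : ℂ) * γ ^ ((i : ℕ) + 1) +
        N2 * γ ^ (n + (i : ℕ) + 1) + N3 * γ ^ (2 * n + (i : ℕ) + 1)) := by
      intro i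
      exact (((InL.pow h _).smul _).add ((InL.pow h _).smul _)).add ((InL.pow h _).smul _)
    rw [hS, hT, Fin.sum_univ_three, Fin.sum_univ_three]
    exact ((hx 0).add (hx 1)).add (hx 2)
  obtain ⟨c, hc1, hc2⟩ := hLk.add (hLST.smul (-1))
  -- fractional parts
  have hf1 : ∀ i, 0 ≤ τ * A + d i - N1 i ∧ τ * A + d i - N1 i ≤ 1 := fun i =>
    ⟨by linarith [Int.floor_le (τ * A + d i)], by linarith [(Int.lt_floor_add_one (τ * A + d i)).le]⟩
  have hf2 : 0 ≤ τ * B - N2 ∧ τ * B - N2 ≤ 1 :=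
    ⟨by linarith [Int.floor_le (τ * B)], by linarith [(Int.lt_floor_add_one (τ * B)).le]⟩
  have hf3 : 0 ≤ τ - N3 ∧ τ - N3 ≤ 1 :=
    ⟨by linarith [Int.floor_le τ], by linarith [(Int.lt_floor_add_one τ).le]⟩
  have v0 : ((0 : Fin 3) : ℕ) = 0 := rfl
  have v1 : ((1 : Fin 3) : ℕ) = 1 := rfl
  have v2 : ((2 : Fin 3) : ℕ) = 2 := rfl
  simp only [v0, v1, v2] at hd1 hd2
  clear_value N1 N2 N3 A B
  have hαp : ∀ j : ℕ, 0 ≤ α ^ j ∧ α ^ j ≤ 1 := fun j => ⟨by positivity, pow_le_one₀ hα.le h.lt.le⟩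
  have hτQ : (α⁻¹) ^ k * s = τ * Q := by rw [hτ]; field_simp
  clear_value τ Q
  have hreal : (∑ i : Fin 3, (c i : ℝ) * α ^ ((i : ℕ) + 1)) =
      ∑ i : Fin 3, ((τ * A + d i - N1 i) * α ^ ((i : ℕ) + 1) + (τ * B - N2) * α ^ (n + (i : ℕ) + 1) +
        (τ - N3) * α ^ (2 * n + (i : ℕ) + 1)) := by
    rw [← hc1, hτQ, hQ, hS]
    simp only [Fin.sum_univ_three, v0, v1, v2]
    push_cast
    linear_combination - hd1
  have hcplx : (∑ i : Fin 3, (c i : ℂ) * γ ^ ((i : ℕ) + 1)) =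
      ∑ i : Fin 3, (((τ * A + d i - N1 i : ℝ) : ℂ) * γ ^ ((i : ℕ) + 1) +
        ((τ * B - N2 : ℝ) : ℂ) * γ ^ (n + (i : ℕ) + 1) +
        ((τ - N3 : ℝ) : ℂ) * γ ^ (2 * n + (i : ℕ) + 1)) := by
    rw [← hc2, ← hd2, hT]
    simp only [Fin.sum_univ_three, v0, v1, v2]
    push_cast
    linear_combination - (τ * (γ + γ ^ 2 + γ ^ 3)) * hkill
  have hcb : ∀ i, |(c i : ℝ)| ≤ K * M := by
    intro i
    refine (hbd (fun i => (c i : ℝ)) i).trans ?_
    apply mul_le_mul_of_nonneg_left _ hK.le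
    apply max_le
    · show |∑ i : Fin 3, (c i : ℝ) * α ^ ((i : ℕ) + 1)| ≤ M
      rw [hreal]
      refine le_trans ?_ hM9
      refine (Finset.abs_sum_le_sum_abs _ _).trans ?_
      have : ∀ i ∈ (Finset.univ : Finset (Fin 3)), |(τ * A + d i - N1 i) * α ^ ((i : ℕ) + 1) +
          (τ * B - N2) * α ^ (n + (i : ℕ) + 1) + (τ - N3) * α ^ (2 * n + (i : ℕ) + 1)| ≤ 3 := by
        intro i _
        have a1 := hαp ((i : ℕ) + 1)
        have a2 := hαp (n + (i : ℕ) + 1)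
        have a3 := hαp (2 * n + (i : ℕ) + 1)
        have b1 := mul_le_one₀ (hf1 i).2 a1.1 a1.2
        have b2 := mul_le_one₀ hf2.2 a2.1 a2.2
        have b3 := mul_le_one₀ hf3.2 a3.1 a3.2
        have c1 := mul_nonneg (hf1 i).1 a1.1
        have c2 := mul_nonneg hf2.1 a2.1
        have c3 := mul_nonneg hf3.1 a3.1
        rw [abs_le]; constructor <;> linarith
      refine (Finset.sum_le_sum this).trans ?_
      simp; norm_num
    · show ‖∑ i : Fin 3, (((c i : ℝ) : ℂ)) * γ ^ ((i : ℕ) + 1)‖ ≤ M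
      have hcast : (∑ i : Fin 3, (((c i : ℝ) : ℂ)) * γ ^ ((i : ℕ) + 1)) =
        ∑ i : Fin 3, (c i : ℂ) * γ ^ ((i : ℕ) + 1) := by
        apply Finset.sum_congr rfl; intro i _; push_cast; rfl
      rw [hcast, hcplx]
      refine (norm_sum_le _ _).trans ?_
      have hg : ∀ j, j ≤ 2 * n + 3 → ∀ x : ℝ, 0 ≤ x → x ≤ 1 → ‖(x : ℂ) * γ ^ j‖ ≤ ‖γ‖ ^ (2 * n + 3) := by
        intro j hj x hx0 hx1
        rw [norm_mul, norm_pow, Complex.norm_real, Real.norm_of_nonneg hx0]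
        have h1 : ‖γ‖ ^ j ≤ ‖γ‖ ^ (2 * n + 3) := pow_le_pow_right₀ h.norm.le hj
        have h2 : 0 ≤ ‖γ‖ ^ j := by positivity
        nlinarith
      have : ∀ i ∈ (Finset.univ : Finset (Fin 3)),
          ‖((τ * A + d i - N1 i : ℝ) : ℂ) * γ ^ ((i : ℕ) + 1) +
          ((τ * B - N2 : ℝ) : ℂ) * γ ^ (n + (i : ℕ) + 1) +
          ((τ - N3 : ℝ) : ℂ) * γ ^ (2 * n + (i : ℕ) + 1)‖ ≤ ‖γ‖ ^ (2 * n + 3) * 3 := by
        intro i _
        have hi := i.isLt
        have g1 := hg ((i : ℕ) + 1) (by omega) _ (hf1 i).1 (hf1 i).2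
        have g2 := hg (n + (i : ℕ) + 1) (by omega) _ hf2.1 hf2.2
        have g3 := hg (2 * n + (i : ℕ) + 1) (by omega) _ hf3.1 hf3.2
        refine (norm_add₃_le).trans ?_
        linarith
      refine (Finset.sum_le_sum this).trans ?_
      simp only [Finset.sum_const, Finset.card_univ, Fintype.card_fin, nsmul_eq_mul]
      rw [hM]; push_cast; linarith
  -- conclusion
  have hnonneg : ∀ i, 0 ≤ N1 i + c i := by
    intro i
    have h1 := (abs_le.mp (hcb i)).1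
    have h2 := (abs_le.mp (hdb i)).1
    have h3 := (hf1 i).2
    have h4 : (0 : ℝ) ≤ ((N1 i + c i : ℤ) : ℝ) := by push_cast; linarith
    exact_mod_cast h4
  have hfinal : (α⁻¹) ^ k * s = ∑ i : Fin 3, (((N1 i + c i : ℤ) : ℝ) * α ^ ((i : ℕ) + 1) +
      (N2 : ℝ) * α ^ (n + (i : ℕ) + 1) + (N3 : ℝ) * α ^ (2 * n + (i : ℕ) + 1)) := by
    have : (α⁻¹) ^ k * s = S + ∑ i : Fin 3, (c i : ℝ) * α ^ ((i : ℕ) + 1) := by
      rw [← hc1]; push_cast; ring
    rw [this, hS]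
    simp only [Fin.sum_univ_three]
    push_cast
    ring
  have hrep : Rep α ((α⁻¹) ^ k * s) := by
    rw [hfinal]
    apply Rep.sum
    intro i _
    exact ((Rep.mono' _ (hnonneg i) _).add (Rep.mono' _ hN20 _)).add (Rep.mono' _ hN30 _)
  have := hrep.mulα k
  rwa [← mul_assoc, ← mul_pow, mul_inv_cancel₀ hα.ne', one_pow, one_mul] at this

/-- representable with digits at most `m` -/
def Good (α : ℝ) (m : ℕ) (y : ℝ) : Prop := ∃ p : ℕ[X], (∀ j, p.coeff j ≤ m) ∧ y = α * aeval α p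

lemma good_of_rep {y : ℝ} (h : Rep α y) : ∃ m, Good α m y := by
  obtain ⟨p, rfl⟩ := h
  refine ⟨p.support.sup p.coeff, p, fun j => ?_, rfl⟩
  by_cases hj : j ∈ p.support
  · exact Finset.le_sup (f := p.coeff) hj
  · rw [notMem_support_iff.mp hj]; exact Nat.zero_le _

lemma Good.mono {m m' : ℕ} {y : ℝ} (h : Good α m y) (hm : m ≤ m') : Good α m' y := by
  obtain ⟨p, hp, rfl⟩ := h
  exact ⟨p, fun j => (hp j).trans hm, rfl⟩

lemma Good.step {m c : ℕ} {y : ℝ} (hc : c ≤ m) (h : Good α m y) : Good α m (α * (c + y)) := by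
  obtain ⟨p, hp, rfl⟩ := h
  refine ⟨C c + X * p, fun j => ?_, ?_⟩
  · rw [coeff_add]
    cases j with
    | zero => simpa using hc
    | succ j => rw [coeff_X_mul, coeff_C_succ, zero_add]; exact hp j
  · rw [map_add, map_mul, aeval_X]; simp

/-- the uniform bound -/
lemma uniform (h : Dat α γ a b) : ∃ m : ℕ, ∀ s t, InL α γ s t → 0 ≤ s → s < 1 → Good α m s := by
  obtain ⟨K, hK, hbd, -⟩ := exists_bound h
  have hα := h.pos
  have hδ : ‖γ‖⁻¹ < 1 := inv_lt_one_of_one_lt₀ h.norm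
  have hδ0 : 0 < ‖γ‖⁻¹ := inv_pos.mpr (by linarith [h.norm])
  set δ := ‖γ‖⁻¹ with hδdef
  set f : ℕ := ⌊α⁻¹⌋₊ with hf
  set C0 : ℝ := f / (1 - δ) with hC0
  have hC0' : 0 ≤ C0 := div_nonneg (by positivity) (by linarith)
  set R : ℕ := ⌈K * (C0 + 1)⌉₊ with hR
  have hall : ∀ c : Fin 3 → ℤ, ∃ m : ℕ, 0 ≤ (Φ α γ (fun i => (c i : ℝ))).1 →
      Good α m (Φ α γ (fun i => (c i : ℝ))).1 := by
    intro c
    by_cases hc : 0 < (Φ α γ (fun i => (c i : ℝ))).1
    · have hL : InL α γ (Φ α γ (fun i => (c i : ℝ))).1 (Φ α γ (fun i => (c i : ℝ))).2 := by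
        refine ⟨c, rfl, ?_⟩
        show (∑ i : Fin 3, (((c i : ℝ) : ℂ)) * γ ^ ((i : ℕ) + 1)) = _
        apply Finset.sum_congr rfl; intro i _; push_cast; rfl
      obtain ⟨m, hm⟩ := good_of_rep (rep_of_pos h hL hc)
      exact ⟨m, fun _ => hm⟩
    · obtain ⟨m, hm⟩ := good_of_rep (Rep.zero α)
      refine ⟨m, fun h0 => ?_⟩
      rw [le_antisymm (not_lt.mp hc) h0]; exact hm
  choose mf hmf using hall
  set box : Finset (Fin 3 → ℤ) := Fintype.piFinset (fun _ => Finset.Icc (-(R : ℤ)) R) with hbox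
  set m := max f (box.sup mf) with hm
  refine ⟨m, ?_⟩
  have key : ∀ N : ℕ, ∀ s t, InL α γ s t → 0 ≤ s → s < 1 → δ ^ N * (‖t‖ - C0) ≤ 1 → Good α m s := by
    intro N
    induction N with
    | zero =>
      intro s t hL hs0 hs1 ht
      obtain ⟨c, hc1, hc2⟩ := hL
      have hΦ1 : (Φ α γ (fun i => (c i : ℝ))).1 = s := hc1.symm
      have hΦ2 : (Φ α γ (fun i => (c i : ℝ))).2 = t := by
        rw [hc2]
        show (∑ i : Fin 3, (((c i : ℝ) : ℂ)) * γ ^ ((i : ℕ) + 1)) = _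
        apply Finset.sum_congr rfl; intro i _; push_cast; rfl
      have hg := hmf c (by rw [hΦ1]; exact hs0)
      rw [hΦ1] at hg
      refine hg.mono ((Finset.le_sup (f := mf) ?_).trans (le_max_right _ _))
      rw [hbox, Fintype.mem_piFinset]
      intro i
      have h1 := hbd (fun i => (c i : ℝ)) i
      rw [hΦ1, hΦ2] at h1
      have h2 : max |s| ‖t‖ ≤ C0 + 1 := by
        rw [pow_zero, one_mul] at ht
        apply max_le
        · rw [abs_of_nonneg hs0]; linarith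
        · linarith
      have h3 : |(c i : ℝ)| ≤ R := by
        refine h1.trans ((mul_le_mul_of_nonneg_left h2 hK.le).trans ?_)
        exact Nat.le_ceil _
      rw [Finset.mem_Icc]
      have h4 := abs_le.mp h3
      constructor
      · have := h4.1; exact_mod_cast this
      · have := h4.2; exact_mod_cast this
    | succ N ih =>
      intro s t hL hs0 hs1 ht
      set c : ℕ := ⌊α⁻¹ * s⌋₊ with hc
      have hL' : InL α γ (α⁻¹ * s - c) (γ⁻¹ * t - c) := by
        have := (hL.mulβ h).add ((InL.one h).smul (-(c : ℤ)))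
        convert this using 1 <;> push_cast <;> ring
      have hs' : 0 ≤ α⁻¹ * s := by positivity
      have hcf : c ≤ f := by
        apply Nat.floor_mono
        have : 0 < α⁻¹ := inv_pos.mpr hα
        nlinarith
      have hg := ih _ _ hL' (by linarith [Nat.floor_le hs'])
        (by linarith [Nat.lt_floor_add_one (α⁻¹ * s)]) (by
          have h1 : ‖γ⁻¹ * t - c‖ ≤ δ * ‖t‖ + f := by
            refine (norm_sub_le _ _).trans ?_
            rw [norm_mul, norm_inv, Complex.norm_natCast]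
            have : (c : ℝ) ≤ f := by exact_mod_cast hcf
            linarith
          have h2 : δ * ‖t‖ + f - C0 = δ * (‖t‖ - C0) := by
            rw [hC0]
            have : (1 - δ) ≠ 0 := by linarith
            field_simp; ring
          have h3 : δ ^ N * (‖γ⁻¹ * t - c‖ - C0) ≤ δ ^ N * (δ * (‖t‖ - C0)) := by
            apply mul_le_mul_of_nonneg_left _ (by positivity)
            linarith
          refine h3.trans ?_
          rw [← mul_assoc, ← pow_succ]; exact ht)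
      have := Good.step (hcf.trans (le_max_left f (box.sup mf))) hg
      rw [← hm] at this
      convert this using 1
      field_simp; ring
  intro s t hL hs0 hs1
  obtain ⟨N, hN⟩ : ∃ N : ℕ, δ ^ N * (‖t‖ + 1) < 1 := by
    obtain ⟨N, hN⟩ := exists_pow_lt_of_lt_one (show 0 < 1 / (‖t‖ + 1) by positivity) hδ
    refine ⟨N, ?_⟩
    rwa [lt_div_iff₀ (by positivity)] at hN
  refine key N s t hL hs0 hs1 ?_
  have h1 : 0 < δ ^ N := by positivity
  nlinarith

end

lemma exists_dat {β : ℝ} (h : IsCubicPisotUnitNonreal β) :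
    ∃ (γ : ℂ) (a b : ℤ), Dat β⁻¹ γ a b := by
  obtain ⟨hβ, hint, hdeg, hunit, hroots⟩ := h
  set p := minpoly ℤ β with hp
  have hmonic : p.Monic := minpoly.monic hint
  have hlead : p.coeff 3 = 1 := by rw [← hdeg]; exact hmonic
  set c0 := p.coeff 0 with hc0
  set c1 := p.coeff 1 with hc1
  set c2 := p.coeff 2 with hc2
  have hz : ∀ z : ℂ, aeval z p = z ^ 3 + c2 * z ^ 2 + c1 * z + c0 := by
    intro z
    rw [aeval_eq_sum_range, hdeg]
    simp [Finset.sum_range_succ, hlead, ← hc0, ← hc1, ← hc2]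
    ring
  have hβ3 : β ^ 3 + c2 * β ^ 2 + c1 * β + c0 = 0 := by
    have h1 : aeval β p = 0 := minpoly.aeval ℤ β
    rw [aeval_eq_sum_range, hdeg] at h1
    simp [Finset.sum_range_succ, hlead, ← hc0, ← hc1, ← hc2] at h1
    linear_combination h1
  have hc01 : c0 = 1 ∨ c0 = -1 := Int.isUnit_iff.mp hunit
  -- a root different from `β`
  obtain ⟨δ, hδ, hδβ⟩ : ∃ δ : ℂ, aeval δ p = 0 ∧ δ ≠ (β : ℂ) := by
    set e : ℝ := c2 + β with he
    set f : ℝ := c1 + β * e with hf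
    obtain ⟨s, hs⟩ := IsAlgClosed.exists_eq_mul_self (discrim (1 : ℂ) e f)
    obtain ⟨z, hz1⟩ := exists_quadratic_eq_zero (one_ne_zero) ⟨s, hs⟩
    have hβc : (β : ℂ) ^ 3 + c2 * β ^ 2 + c1 * β + c0 = 0 := by exact_mod_cast congrArg (fun t : ℝ => (t : ℂ)) hβ3
    have hfac : ∀ w : ℂ, w * w + e * w + f = 0 → aeval w p = 0 := by
      intro w hw
      rw [hz]
      have : w ^ 3 + c2 * w ^ 2 + c1 * w + c0 = (w - β) * (w * w + e * w + f) := by
        rw [hf, he]; push_cast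
        linear_combination hβc
      rw [this, hw, mul_zero]
    have hz1' : z * z + e * z + f = 0 := by linear_combination hz1
    by_cases hzβ : z = β
    · refine ⟨-e - z, hfac _ (by linear_combination hz1'), fun h2 => ?_⟩
      rw [hzβ] at h2 hz1'
      have h3 : e = - 2 * β := by
        have : (e : ℂ) = ((- 2 * β : ℝ) : ℂ) := by push_cast; linear_combination - h2
        exact_mod_cast this
      have h4 : β * β + e * β + f = 0 := by exact_mod_cast hz1'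
      have h5 : (c0 : ℝ) = - β ^ 3 := by
        have : (c0 : ℝ) = - β * f := by rw [hf, he]; linear_combination hβ3
        rw [this]; rw [h3] at h4; linear_combination - β * h4
      have h6 : 1 < β ^ 3 := one_lt_pow₀ hβ (by norm_num)
      rcases hc01 with h7 | h7 <;> rw [h7] at h5 <;> push_cast at h5 <;> linarith
    · exact ⟨z, hfac z hz1', hzβ⟩
  obtain ⟨hδ1, hδim⟩ := hroots δ hδ hδβ
  have hδ0 : δ ≠ 0 := by rintro rfl; exact hδim rfl
  rw [hz] at hδ
  -- the constant coefficient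
  have hc0' : c0 = -1 := by
    set s : ℝ := 2 * δ.re with hs
    set q : ℝ := Complex.normSq δ with hq
    have hq0 : 0 < q := Complex.normSq_pos.mpr hδ0
    have hδq : δ ^ 2 - s * δ + q = 0 := by
      have h1 : δ * (starRingEnd ℂ) δ = (q : ℂ) := by rw [Complex.mul_conj]
      have h2 : δ + (starRingEnd ℂ) δ = ((2 * δ.re : ℝ) : ℂ) := by rw [Complex.add_conj]
      rw [← hs] at h2
      rw [← h1, ← h2]; ring
    set e : ℝ := c2 + s with he
    have hlin : ((c1 - q + s * e : ℝ) : ℂ) * δ + ((c0 - q * e : ℝ) : ℂ) = 0 := by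
      rw [he]; push_cast
      linear_combination hδ - (δ + c2 + s) * hδq
    have him := congrArg Complex.im hlin
    have hre := congrArg Complex.re hlin
    simp only [Complex.add_im, Complex.im_ofReal_mul, Complex.ofReal_im, add_zero, Complex.zero_im,
      Complex.add_re, Complex.re_ofReal_mul, Complex.ofReal_re, Complex.zero_re] at him hre
    have h1 : c1 - q + s * e = 0 := (mul_eq_zero.mp him).resolve_right hδim
    rw [h1, zero_mul, zero_add] at hre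
    have h2 : (β ^ 2 - s * β + q) * (β + e) = 0 := by
      rw [he] at h1 hre ⊢; linear_combination hβ3 - β * h1 - hre
    have h3 : 0 < β ^ 2 - s * β + q := by
      have h4 : q = δ.re ^ 2 + δ.im ^ 2 := by rw [hq, Complex.normSq_apply]; ring
      have h5 : 0 < δ.im ^ 2 := by positivity
      rw [h4, hs]; nlinarith [sq_nonneg (β - δ.re)]
    have h4 : e = - β := by
      have := (mul_eq_zero.mp h2).resolve_left h3.ne'
      linarith
    have h5 : (c0 : ℝ) < 0 := by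
      have : (c0 : ℝ) = - (q * β) := by rw [h4] at hre; linarith
      rw [this]; have := mul_pos hq0 (show 0 < β by linarith); linarith
    rcases hc01 with h7 | h7
    · rw [h7] at h5; norm_num at h5
    · exact h7
  have hβ0 : β ≠ 0 := by linarith
  refine ⟨δ⁻¹, -c2, -c1, ?_, ?_, ?_, ?_, ?_, ?_⟩
  · exact inv_pos.mpr (by linarith)
  · exact inv_lt_one_of_one_lt₀ hβ
  · rw [Complex.inv_im]
    exact div_ne_zero (neg_ne_zero.mpr hδim) (Complex.normSq_pos.mpr hδ0).ne'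
  · rw [norm_inv]
    exact (one_lt_inv₀ (norm_pos_iff.mpr hδ0)).mpr hδ1
  · rw [hc0'] at hβ3; push_cast at hβ3 ⊢
    field_simp; linear_combination - hβ3
  · rw [hc0'] at hδ; push_cast at hδ ⊢
    field_simp; linear_combination - hδ

/-- For every real cubic Pisot unit `β` with non-real conjugates there is an `m` such that every
element of `ℤ[β] ∩ [0,1)` is a finite sum `∑ a_j β^{-j}` with digits in `{0, ..., m}`. -/
theorem result (β : ℝ) (hβ : IsCubicPisotUnitNonreal β) :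
    ∃ m : ℕ, ∀ x ∈ Algebra.adjoin ℤ {β}, 0 ≤ x → x < 1 →
      ∃ (k : ℕ) (a : ℕ → ℕ), (∀ j, a j ≤ m) ∧ x = ∑ j ∈ Finset.Icc 1 k, (a j : ℝ) * β⁻¹ ^ j := by
  obtain ⟨γ, a, b, h⟩ := exists_dat hβ
  obtain ⟨m, hm⟩ := uniform h
  refine ⟨m, fun x hx hx0 hx1 => ?_⟩
  rw [Algebra.adjoin_singleton_eq_range_aeval] at hx
  obtain ⟨f, rfl⟩ := hx
  have hL := InL.aeval h f
  rw [inv_inv] at hL
  obtain ⟨p, hp, hpx⟩ := hm _ _ hL hx0 hx1
  refine ⟨p.natDegree + 1, fun j => p.coeff (j - 1), fun j => hp _, ?_⟩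
  show aeval β f = _
  rw [hpx, aeval_eq_sum_range, Finset.mul_sum]
  generalize p.natDegree + 1 = n
  induction n with
  | zero => simp
  | succ n ih =>
    rw [Finset.sum_range_succ, Finset.sum_Icc_succ_top (by omega), ih]
    simp only [Nat.add_sub_cancel, nsmul_eq_mul]
    ring

end Pool.Agent.Results.MP_f878ff_nt.FiniteRepresentations
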